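import Pool.Agent.Lib.helper11.ETRPoly

namespace Pool.Agent.Results.MP_e38cae_lc.AERHard

open Pool.Agent.Cx

/-- a vector of length `n`, extended by zeros -/
def ext {n : ℕ} (x : Fin n → ℝ) (i : ℕ) : ℝ := if h : i < n then x ⟨i, h⟩ else 0

/-- `I = (n, [f₁, ..., fₘ])`: polynomials in `n` variables defining a surjective map
`ℝⁿ → ℝᵐ` -/
def Surj (I : ℕ × List Poly) : Prop :=
  (∀ p ∈ I.2, p.In I.1) ∧
    Function.Surjective fun (x : Fin I.1 → ℝ) (j : Fin I.2.length) => I.2[j].ev (ext x)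

def mulM (c : Bool) (m : List ℕ) (p : Poly) : Poly :=
  p.map fun t => ((xor c t.1.1, t.1.2), m ++ t.2)

lemma mulM_ev (c : Bool) (m : List ℕ) (p : Poly) (x : ℕ → ℝ) :
    (mulM c m p).ev x = (if c then -1 else 1) * (m.map x).prod * p.ev x := by
  induction p with
  | nil => simp [mulM]
  | cons t p ih =>
    simp only [mulM, List.map_cons, Poly.ev_cons] at *
    rw [ih]
    obtain ⟨⟨s, d⟩, l⟩ := t
    cases c <;> cases s <;> simp [intVal] <;> ring

lemma mulM_in {c : Bool} {m : List ℕ} {p : Poly} {n : ℕ} (h : p.In n) (hm : ∀ i ∈ m, i < n) :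
    (mulM c m p).In n := by
  intro t ht i hi
  obtain ⟨t, ht', rfl⟩ := List.mem_map.1 ht
  exact (List.mem_append.1 hi).elim (hm i) (h t ht' i)

def N (p : List ℕ × List (Eqn ℕ)) : ℕ := size p.1 + size p.2 + 2

def P (p : List ℕ × List (Eqn ℕ)) : Poly := (c1, [N p, N p]) :: quart p.2

def F1 (p : List ℕ × List (Eqn ℕ)) : Poly := mulM false [N p + 1, N p + 2] (P p) ++ P p

def F2 (p : List ℕ × List (Eqn ℕ)) : Poly :=
  mulM false [N p + 3] (F1 p) ++ mulM false [N p + 2] (P p)

def dd (l : List ℕ) : List ℕ := (List.range (size l)).filter fun i => decide (i ∈ l)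

lemma mem_dd {l : List ℕ} {u : ℕ} : u ∈ dd l ↔ u ∈ l := by
  simp only [dd, List.mem_filter, List.mem_range, decide_eq_true_eq, and_iff_right_iff_imp]
  intro h
  have := size_lt_of_mem h
  simp only [size_nat] at this; omega

lemma nodup_dd (l : List ℕ) : (dd l).Nodup := List.nodup_range.filter _

def red (p : List ℕ × List (Eqn ℕ)) : ℕ × List Poly :=
  (N p + 4, F1 p :: F2 p :: (dd p.1).map fun u => [(c1, [u])])

lemma red_pt : PT red := by
  have h0 : PT N := by unfold N; fun_prop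
  have h1 : PT P := by unfold P; fun_prop
  have h2 : PT F1 := by unfold F1 mulM; fun_prop
  have h3 : PT F2 := by unfold F2 mulM; fun_prop
  unfold red dd; fun_prop

lemma P_in (p : List ℕ × List (Eqn ℕ)) : (P p).In (N p + 1) := by
  intro t ht
  rcases List.mem_cons.1 ht with rfl | ht
  · simp
  · exact (quart_in p.2).mono (by simp [N]; omega) t ht

lemma In_app {p q : Poly} {n : ℕ} (h : p.In n) (h' : q.In n) : (p ++ q).In n := fun t ht =>
  (List.mem_append.1 ht).elim (h t) (h' t)

lemma F1_in (p : List ℕ × List (Eqn ℕ)) : (F1 p).In (N p + 4) :=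
  In_app (mulM_in ((P_in p).mono (by omega)) (by simp)) ((P_in p).mono (by omega))

lemma F2_in (p : List ℕ × List (Eqn ℕ)) : (F2 p).In (N p + 4) :=
  In_app (mulM_in (F1_in p) (by simp)) (mulM_in ((P_in p).mono (by omega)) (by simp))

lemma u_lt {p : List ℕ × List (Eqn ℕ)} {u : ℕ} (h : u ∈ p.1) : u < N p := by
  have := size_lt_of_mem h
  simp only [size_nat, N] at *; omega

lemma punct (a b : ℝ) (h : ¬ (a = 0 ∧ b = 0)) :
    ∃ u v w : ℝ, u * v + 1 = a ∧ w * (u * v + 1) + v = b := by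
  by_cases ha : a = 0
  · have hb : b ≠ 0 := fun hb => h ⟨ha, hb⟩
    exact ⟨-b⁻¹, b, 0, by field_simp; simp [ha], by simp⟩
  · exact ⟨a - 1, 1, (b - 1) / a, by ring, by field_simp; ring⟩

lemma surj_iff (n : ℕ) (L : List Poly) (h : ∀ p ∈ L, p.In n) : Surj (n, L) ↔
    ∀ y : ℕ → ℝ, ∃ x : ℕ → ℝ, ∀ j (hj : j < L.length), L[j].ev x = y j := by
  refine (and_iff_right h).trans ⟨fun H y => ?_, fun H y => ?_⟩
  · obtain ⟨x, hx⟩ := H fun j => y j
    exact ⟨ext x, fun j hj => congrFun hx ⟨j, hj⟩⟩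
  · obtain ⟨x, hx⟩ := H (ext y)
    refine ⟨fun i => x i, funext fun j => ?_⟩
    have := hx j j.2
    simp only [ext, j.2, dif_pos] at this
    rw [← this]
    exact Poly.ev_congr (h _ (List.getElem_mem _)) fun i hi => by simp [ext, hi]

lemma red_iff (p : List ℕ × List (Eqn ℕ)) : AFMA p ↔ Surj (red p) := by
  have eP : ∀ x, (P p).ev x = x (N p) * x (N p) + (quart p.2).ev x := fun x => by simp [P]
  have e1 : ∀ x, (F1 p).ev x = (P p).ev x * (x (N p + 1) * x (N p + 2) + 1) := fun x => by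
    simp [F1, mulM_ev]; ring
  have e2 : ∀ x, (F2 p).ev x = (P p).ev x * (x (N p + 3) *
      (x (N p + 1) * x (N p + 2) + 1) + x (N p + 2)) := fun x => by
    simp [F2, mulM_ev, e1]; ring
  rw [red, surj_iff]
  swap
  · intro q hq
    simp only [List.mem_cons, List.mem_map, mem_dd] at hq
    rcases hq with rfl | rfl | ⟨u, hu, rfl⟩
    exacts [F1_in p, F2_in p, by have := u_lt hu; simp [Poly.In]; omega]
  constructor
  · intro H y
    obtain ⟨x, hx, h⟩ := H fun u => y ((dd p.1).idxOf u + 2)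
    have h0 := (quart_ev p.2 x).2.2 h
    obtain ⟨s, u, v, w, h1, h2⟩ : ∃ s u v w : ℝ, s * s * (u * v + 1) = y 0 ∧
        s * s * (w * (u * v + 1) + v) = y 1 := by
      by_cases hy : y 0 = 0 ∧ y 1 = 0
      · exact ⟨0, 0, 0, 0, by simp [hy], by simp [hy]⟩
      · obtain ⟨u, v, w, h1, h2⟩ := punct _ _ hy
        exact ⟨1, u, v, w, by simpa using h1, by simpa using h2⟩
    let x' : ℕ → ℝ := fun i => if i < N p then x i else if i = N p then s else
      if i = N p + 1 then u else if i = N p + 2 then v else w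
    have h3 : (quart p.2).ev x' = 0 := by
      rw [← h0]
      exact Poly.ev_congr (quart_in p.2) fun i hi => if_pos (by simp only [N]; omega)
    refine ⟨x', fun j hj => ?_⟩
    rcases j with _ | _ | j
    · simpa [e1, eP, h3, x'] using h1
    · simpa [e2, eP, h3, x'] using h2
    · have hj' : j < (dd p.1).length := by simpa using hj
      have hm : (dd p.1)[j] ∈ p.1 := mem_dd.1 (List.getElem_mem _)
      simp [x', u_lt hm, hx _ hm, (nodup_dd p.1).idxOf_getElem]
  · intro H z
    obtain ⟨x, hx⟩ := H fun j => if j < 2 then 0 else z ((dd p.1).getD (j - 2) 0)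
    have h1 := hx 0 (by simp)
    have h2 := hx 1 (by simp)
    simp only [List.getElem_cons_zero, List.getElem_cons_succ, e1, e2, Nat.ofNat_pos, if_true,
      Nat.one_lt_ofNat] at h1 h2
    have h3 : (P p).ev x = 0 := by
      by_contra h
      have h4 := (mul_eq_zero.1 h1).resolve_left h
      have h5 := (mul_eq_zero.1 h2).resolve_left h
      rw [h4] at h5
      rw [show x (N p + 2) = 0 by linarith] at h4
      simp at h4
    have h4 := quart_ev p.2 x
    refine ⟨x, fun u hu => ?_, h4.2.1 (by nlinarith [eP x, mul_self_nonneg (x (N p)), h4.1])⟩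
    obtain ⟨j, hj, rfl⟩ := List.getElem_of_mem (mem_dd.2 hu)
    simpa [hj] using hx (j + 2) (by simpa using hj)

theorem result : AERHard (Lang Surj) :=
  (rh_afma.red red_pt red_iff).aerHard

end Pool.Agent.Results.MP_e38cae_lc.AERHard
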